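import Pool.Agent.Lib_MP_fa2e48_si.Main

/-!
# Slenderness of `A` over `End A` is not determined by the groups `p ^ ω A` and `A / p ^ ω A`

The definitions used in the statement (`IsSlender`, `infHeight`, `IsDivisibleSubgroup`) are in
`Pool/Agent/Lib_MP_fa2e48_al/Defs.lean`.
-/

open Pool.Agent.Lib_MP_fa2e48_al

namespace Pool.Agent.Results.MP_fa2e48_al.SameInvariants

theorem reduced_of {p : ℕ} (hp : p ≠ 0) {A : Type} [AddCommGroup A]
    (h : ∀ a ∈ infHeight p A, p • a = 0) (D : AddSubgroup A) (hD : IsDivisibleSubgroup D) :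
    D = ⊥ := by
  rw [AddSubgroup.eq_bot_iff_forall]
  intro d hd
  obtain ⟨e, he, rfl⟩ := hD p hp d hd
  apply h
  intro n
  obtain ⟨b, _, hb⟩ := hD (p ^ n) (pow_ne_zero n hp) e he
  exact ⟨b, hb⟩

/-- **Theorem.** For every prime `p` there are reduced abelian `p`-groups `A`, `A'` with isomorphic
(infinite, elementary abelian) subgroups of the elements of infinite height and with isomorphic
quotients by them, such that `A` is slender over `End A` and `A'` is not slender over `End A'`. -/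
theorem result (p : ℕ) [Fact p.Prime] :
    ∃ (A A' : Type) (_ : AddCommGroup A) (_ : AddCommGroup A'),
      (∀ a : A, ∃ k : ℕ, p ^ k • a = 0) ∧ (∀ a : A', ∃ k : ℕ, p ^ k • a = 0) ∧
      (∀ D : AddSubgroup A, IsDivisibleSubgroup D → D = ⊥) ∧
      (∀ D : AddSubgroup A', IsDivisibleSubgroup D → D = ⊥) ∧
      (∀ a ∈ infHeight p A, p • a = 0) ∧
      (infHeight p A : Set A).Infinite ∧
      Nonempty (infHeight p A ≃+ infHeight p A') ∧
      Nonempty ((A ⧸ (infHeight p A).toAddSubgroup) ≃+ (A' ⧸ (infHeight p A').toAddSubgroup)) ∧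
      IsSlender (AddMonoid.End A) A ∧ ¬ IsSlender (AddMonoid.End A') A' := by
  obtain ⟨A, A', i, i', h1, h2, h3, h4, h5, h6, h7, h8, h9⟩ := Lib_MP_fa2e48_si.main p
  have hp : p ≠ 0 := (Fact.out : p.Prime).ne_zero
  exact ⟨A, A', i, i', h1, h2, reduced_of hp h3, reduced_of hp h4, h3, h5, h6, h7, h8, h9⟩

end Pool.Agent.Results.MP_fa2e48_al.SameInvariants
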