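import Mathlib
import Pool.Agent.Lib_MP_fa2e48_al.Defs
import Pool.Agent.Lib_MP_fa2e48_al.Divisible
import Pool.Agent.Lib_MP_fa2e48_al.DSC
import Pool.Agent.Lib_MP_fa2e48_tp.Defs
import Pool.Agent.Lib_MP_fa2e48_tp.Main

/-!
# Mader's question for all simply presented `p`-groups

The definitions used in the statement are `IsSlender`, `IsDivisibleSubgroup`
(`Pool/Agent/Lib_MP_fa2e48_al/Defs.lean`) and `AxiomThree`
(`Pool/Agent/Lib_MP_fa2e48_tp/Defs.lean`).
-/

namespace Pool.Agent.Results.MP_fa2e48_al.SimplyPresented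

open Pool.Agent.Lib_MP_fa2e48_al Pool.Agent.Lib_MP_fa2e48_tp

universe u

theorem le_divPart {p : ℕ} [hp : Fact p.Prime] {A : Type u} [AddCommGroup A] (D : AddSubgroup A)
    (hD : IsDivisibleSubgroup D) {d : A} (hd : d ∈ D) : d ∈ divPart p A := by
  have h := hD p hp.out.ne_zero
  choose! e he hpe using h
  let s : ℕ → A := fun i => Nat.rec d (fun _ x => e x) i
  have hsD : ∀ i, s i ∈ D := by
    intro i
    induction i with
    | zero => exact hd
    | succ i ih => exact he _ ih
  exact ⟨s, rfl, fun i => hpe _ (hsD i)⟩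

/-- Let `A` be a `p`-group with a divisible subgroup `D` such that `A / D` satisfies Hill's third
axiom of countability.  Then `A` is slender as a left module over its endomorphism ring if and only
if `0` is the only finite fully invariant subgroup of `A`. -/
theorem result (p : ℕ) [Fact p.Prime] (A : Type u) [AddCommGroup A]
    (hA : ∀ a : A, ∃ k : ℕ, p ^ k • a = 0) (D : AddSubgroup A) (hD : IsDivisibleSubgroup D)
    (h3 : AxiomThree p (A ⧸ D)) :
    IsSlender (AddMonoid.End A) A ↔
      ∀ N : AddSubgroup A, (∀ φ : AddMonoid.End A, ∀ x ∈ N, φ x ∈ N) → (N : Set A).Finite →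
        N = ⊥ := by
  constructor
  · intro h N hN hfin
    by_contra hne
    exact not_slender_of_finite_fi N hN hfin hne h
  · intro hF
    by_cases hdiv : divPart p A = ⊥
    · refine slender_of_axiomThree hA hdiv (QuotientAddGroup.mk' D)
        (QuotientAddGroup.mk'_surjective _) (fun x hx => ?_) h3 hF
      have h1 : x ∈ D := (QuotientAddGroup.eq_zero_iff x).1 hx
      have h2 := le_divPart (p := p) D hD h1
      rw [hdiv] at h2
      simpa using h2
    · rw [Lib_MP_fa2e48_ulm.slender_iff_of_nonreduced hA hdiv]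
      intro hfin
      let N : AddSubgroup A :=
        { carrier := {d : A | d ∈ divPart p A ∧ p • d = 0}
          add_mem' := fun ha hb => ⟨add_mem ha.1 hb.1, by rw [smul_add, ha.2, hb.2, add_zero]⟩
          zero_mem' := ⟨zero_mem _, smul_zero _⟩
          neg_mem' := fun ha => ⟨neg_mem ha.1, by rw [smul_neg, ha.2, neg_zero]⟩ }
      have hN : N = ⊥ := by
        refine hF N (fun φ x hx => ?_) hfin
        obtain ⟨h1, h2⟩ := hx
        refine ⟨(divPart p A).smul_mem φ h1, ?_⟩
        rw [← map_nsmul, h2, map_zero]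
      obtain ⟨d, hd, hd0⟩ := (Submodule.ne_bot_iff _).1 hdiv
      classical
      obtain ⟨k, hk, hmin⟩ : ∃ k, p ^ k • d = 0 ∧ ∀ j < k, p ^ j • d ≠ 0 :=
        ⟨Nat.find (hA d), Nat.find_spec (hA d), fun j hj => Nat.find_min (hA d) hj⟩
      rcases k with _ | k
      · exact hd0 (by simpa using hk)
      · have h1 : p ^ k • d ∈ N :=
          ⟨(divPart p A).toAddSubgroup.nsmul_mem hd _, by
            rw [smul_smul, ← pow_succ', hk]⟩
        rw [hN, AddSubgroup.mem_bot] at h1
        exact hmin k (Nat.lt_succ_self k) h1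

end Pool.Agent.Results.MP_fa2e48_al.SimplyPresented
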