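import Mathlib
import Pool.Agent.Lib_MP_fa2e48_al.Defs
import Pool.Agent.Lib_MP_fa2e48_al.General
import Pool.Agent.Lib_MP_fa2e48_al.Inj
import Pool.Agent.Lib_MP_fa2e48_al.Unbounded
import Pool.Agent.Lib_MP_fa2e48_al.Summand
import Pool.Agent.Lib_MP_fa2e48_al.Divisible

/-!
# Mader's question: which abelian `p`-groups are slender over their endomorphism rings?

The classification theorem.  All definitions used in the statement are in
`Pool/Agent/Lib_MP_fa2e48_al/Defs.lean` (`IsSlender`, `infHeight`, `IsTorsionComplete`,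
`IsDivisibleSubgroup`).
-/

namespace Pool.Agent.Results.MP_fa2e48_al.SlenderClassification

open Pool.Agent.Lib_MP_fa2e48_al

theorem divPart_divisible {p : ℕ} [Fact p.Prime] {A : Type*} [AddCommGroup A]
    (hA : ∀ a : A, ∃ k : ℕ, p ^ k • a = 0) :
    IsDivisibleSubgroup (divPart p A).toAddSubgroup := by
  have h := divisible_of_pdivisible (p := p) (Q := (divPart p A))
    (fun q => by
      obtain ⟨k, hk⟩ := hA q
      exact ⟨k, Subtype.ext (by simpa using hk)⟩)
    (fun q => by
      obtain ⟨q, s, rfl, hs⟩ := q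
      exact ⟨⟨s 1, fun i => s (i + 1), rfl, fun i => hs (i + 1)⟩, Subtype.ext (by simpa using hs 0)⟩)
  intro n hn d hd
  obtain ⟨r, hr⟩ := h n hn ⟨d, hd⟩
  exact ⟨r, r.2, by simpa using congrArg Subtype.val hr⟩

theorem le_divPart {p : ℕ} [hp : Fact p.Prime] {A : Type*} [AddCommGroup A] (D : AddSubgroup A)
    (hD : IsDivisibleSubgroup D) {d : A} (hd : d ∈ D) : d ∈ divPart p A := by
  have h := hD p hp.out.ne_zero
  choose! e he hpe using h
  let s : ℕ → A := fun i => Nat.rec d (fun _ x => e x) i
  have hsD : ∀ i, s i ∈ D := by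
    intro i
    induction i with
    | zero => exact hd
    | succ i ih => exact he _ ih
  exact ⟨s, rfl, fun i => hpe _ (hsD i)⟩

/-- **Classification.** -/
theorem result (p : ℕ) [Fact p.Prime] (A : Type*) [AddCommGroup A]
    (hA : ∀ a : A, ∃ k : ℕ, p ^ k • a = 0) :
    IsSlender (AddMonoid.End A) A ↔
      (∀ a : A, a = 0) ∨
      (∃ k : ℕ, (∀ a : A, p ^ (k + 1) • a = 0) ∧ (Set.range fun a : A => p ^ k • a).Infinite) ∨
      ((∀ k : ℕ, ∃ a : A, p ^ k • a ≠ 0) ∧ infHeight p A = ⊥ ∧ ¬ IsTorsionComplete p A) ∨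
      (∃ D : AddSubgroup A, IsDivisibleSubgroup D ∧ {d : A | d ∈ D ∧ p • d = 0}.Infinite) ∨
      ((∀ D : AddSubgroup A, IsDivisibleSubgroup D → D = ⊥) ∧ infHeight p A ≠ ⊥ ∧
        IsSlender (AddMonoid.End A) (infHeight p A)) := by
  constructor
  · intro h
    by_cases hinf : infHeight p A = ⊥
    · by_cases hU : ∀ k : ℕ, ∃ a : A, p ^ k • a ≠ 0
      · exact Or.inr (Or.inr (Or.inl ⟨hU, hinf, (slender_iff_separable hA hU hinf).1 h⟩))
      · push Not at hU
        classical
        obtain ⟨K, hK, hmin⟩ : ∃ K, (∀ a : A, p ^ K • a = 0) ∧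
            ∀ j < K, ¬ (∀ a : A, p ^ j • a = 0) :=
          ⟨Nat.find hU, Nat.find_spec hU, fun j hj => Nat.find_min hU hj⟩
        rcases K with _ | k
        · exact Or.inl fun a => by simpa using hK a
        · refine Or.inr (Or.inl ⟨k, hK, ?_⟩)
          intro hfin
          have h1 := hmin k (Nat.lt_succ_self k)
          push Not at h1
          obtain ⟨a, ha⟩ := h1
          let N : Submodule (AddMonoid.End A) A :=
            { carrier := Set.range fun a : A => p ^ k • a
              add_mem' := by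
                rintro _ _ ⟨x, rfl⟩ ⟨y, rfl⟩
                exact ⟨x + y, smul_add _ _ _⟩
              zero_mem' := ⟨0, smul_zero _⟩
              smul_mem' := by
                rintro φ _ ⟨x, rfl⟩
                exact ⟨φ x, by
                  show p ^ k • φ x = φ (p ^ k • x)
                  rw [map_nsmul]⟩ }
          exact not_isSlender_of_finite_submodule N hfin (p ^ k • a) ⟨a, rfl⟩ ha h
    · right; right; right
      by_cases hD : ∀ D : AddSubgroup A, IsDivisibleSubgroup D → D = ⊥
      · exact Or.inr ⟨hD, hinf, (slender_iff_infHeight hA hinf).1 h⟩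
      · left
        refine ⟨(divPart p A).toAddSubgroup, divPart_divisible hA, ?_⟩
        intro hfin
        refine not_slender_of_divPart hA ?_ hfin h
        push Not at hD
        obtain ⟨D, hDd, hD0⟩ := hD
        obtain ⟨d, hd0⟩ := AddSubgroup.ne_bot_iff_exists_ne_zero.1 hD0
        intro hbot
        have h2 : (d : A) ∈ divPart p A := le_divPart (p := p) D hDd d.2
        rw [hbot, Submodule.mem_bot] at h2
        exact hd0 (Subtype.ext h2)
  · rintro (h | ⟨k, hk, hinf⟩ | ⟨hU, hinf, hT⟩ | ⟨D, hD, hDinf⟩ | ⟨-, hinf, hs⟩)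
    · intro f
      convert Set.finite_empty (α := ℕ)
      ext n
      simpa using h (f (Pi.single n 1))
    · exact slender_of_bounded k hk hinf
    · exact (slender_iff_separable hA hU hinf).2 hT
    · exact slender_of_divisible hA D (hD p (Fact.out : p.Prime).ne_zero) hDinf
    · exact (slender_iff_infHeight hA hinf).2 hs

end Pool.Agent.Results.MP_fa2e48_al.SlenderClassification
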