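import Mathlib
import Pool.Agent.Lib_MP_fa2e48_al.Defs
import Pool.Agent.Lib_MP_fa2e48_tp.Defs
import Pool.Agent.Lib_MP_fa2e48_tp.Main

/-!
# Mader's question: reduction along totally projective quotients

The definitions used in the statement are `IsSlender`, `IsTorsionComplete`
(`Pool/Agent/Lib_MP_fa2e48_al/Defs.lean`), `ulm` and `AxiomThree`
(`Pool/Agent/Lib_MP_fa2e48_tp/Defs.lean`).
-/

namespace Pool.Agent.Results.MP_fa2e48_al.TotallyProjectiveQuotient

open Pool.Agent.Lib_MP_fa2e48_al Pool.Agent.Lib_MP_fa2e48_tp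

universe u

/-- Let `A` be a `p`-group and `κ` any ordinal such that `U = p ^ (ω κ) A` is nonzero and `A / U`
satisfies the third axiom of countability (it is totally projective).  Then `A` is slender over its
endomorphism ring iff `U` is slender over its own endomorphism ring.  If moreover
`p ^ (ω (κ + 1)) A = 0`, this holds iff either `p ^ (k + 1) U = 0` and `p ^ k U` is infinite for
some `k`, or `U` is unbounded and not torsion-complete. -/
theorem result (p : ℕ) [Fact p.Prime] (A : Type u) [AddCommGroup A]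
    (hA : ∀ a : A, ∃ k : ℕ, p ^ k • a = 0) (κ : Ordinal.{u})
    (hC : AxiomThree p (A ⧸ ulm p A κ)) (hne : ulm p A κ ≠ ⊥) :
    (IsSlender (AddMonoid.End A) A ↔ IsSlender (AddMonoid.End (ulm p A κ)) (ulm p A κ)) ∧
    (ulm p A (κ + 1) = ⊥ → (IsSlender (AddMonoid.End A) A ↔
      (∃ k : ℕ, (∀ a ∈ ulm p A κ, p ^ (k + 1) • a = 0) ∧
        ((fun a : A => p ^ k • a) '' (ulm p A κ : Set A)).Infinite) ∨
      ((∀ k : ℕ, ∃ a ∈ ulm p A κ, p ^ k • a ≠ 0) ∧ ¬ IsTorsionComplete p (ulm p A κ)))) := by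
  obtain ⟨I, ⟨b⟩⟩ := exists_ulmBasis hA (QuotientAddGroup.mk' (ulm p A κ))
    (QuotientAddGroup.mk'_surjective _) (κs := κ)
    (fun x => QuotientAddGroup.eq_zero_iff x) hC
  have h1 := slender_iff hA b hne
  refine ⟨h1, fun hsep => ?_⟩
  have hinf : infHeight p (ulm p A κ) = ⊥ := by
    rw [Submodule.eq_bot_iff]
    intro x hx
    have h2 : x ∈ ulm p (ulm p A κ) 1 := mem_ulm_one.2 hx
    rw [mem_ulm_ulm, hsep, AddSubgroup.mem_bot] at h2
    exact Subtype.ext h2
  obtain ⟨x, hx⟩ := AddSubgroup.ne_bot_iff_exists_ne_zero.1 hne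
  rw [h1, Lib_MP_fa2e48_ulm.slender_iff_of_separable (ulm_torsion hA κ) hinf ⟨x, hx⟩]
  have himg : ∀ k : ℕ, ((fun a : A => p ^ k • a) '' (ulm p A κ : Set A)) =
      Subtype.val '' (Set.range fun a : ulm p A κ => p ^ k • a) := by
    intro k
    ext y
    constructor
    · rintro ⟨a, ha, rfl⟩
      exact ⟨p ^ k • ⟨a, ha⟩, ⟨⟨a, ha⟩, rfl⟩, rfl⟩
    · rintro ⟨_, ⟨a, rfl⟩, rfl⟩
      exact ⟨a, a.2, rfl⟩
  refine or_congr (exists_congr fun k => and_congr ?_ ?_) (and_congr (forall_congr' fun k => ?_)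
    Iff.rfl)
  · exact ⟨fun h a ha => congrArg Subtype.val (h ⟨a, ha⟩), fun h a => Subtype.ext (h a a.2)⟩
  · rw [himg, Set.infinite_image_iff Subtype.val_injective.injOn]
  · constructor
    · rintro ⟨a, ha⟩
      exact ⟨a, a.2, fun h => ha (Subtype.ext h)⟩
    · rintro ⟨a, ha, h⟩
      exact ⟨⟨a, ha⟩, fun h' => h (congrArg Subtype.val h')⟩

end Pool.Agent.Results.MP_fa2e48_al.TotallyProjectiveQuotient
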